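import Mathlib
import Pool.Agent.W978.QP.Stm

set_option autoImplicit false

namespace Pool.Agent.W51.QP

open Pool.Agent.W978.QN (Prim)
open Pool.Agent.W978.QP

/-- No nonzero vector is killed by all the linear forms. -/
theorem ker_trivial (b : Fin 2 → Fin 3 → Fin 3 → ℤ) (h : Smooth b) (q : Fin 3 → ℂ)
    (hq : ∀ i k, av b i q k = 0) : q = 0 := by
  by_contra hne
  let M : Matrix (Fin 3) (Fin 3) ℂ := Matrix.of fun j k => (b 0 j k : ℂ)
  have hM : M.det = 0 := by
    rw [← Matrix.exists_vecMul_eq_zero_iff]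
    refine ⟨q, hne, ?_⟩
    funext k
    have := hq 0 k
    simp only [av] at this
    simp only [Matrix.vecMul, dotProduct, M, Matrix.of_apply, Pi.zero_apply]
    rw [← this]
    exact Finset.sum_congr rfl fun j _ => mul_comm _ _
  obtain ⟨r, hr, hMr⟩ := (Matrix.exists_mulVec_eq_zero_iff).2 hM
  have hMr' : ∀ j, ∑ k, (b 0 j k : ℂ) * r k = 0 := by
    intro j
    have := congrFun hMr j
    simpa only [Matrix.mulVec, dotProduct, M, Matrix.of_apply, Pi.zero_apply] using this
  have hz : ∀ (p : Fin 2 → ℂ) (r : Fin 3 → ℂ), fv b p q r = 0 := by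
    intro p r
    have : fv b p q r = ∑ i, ∑ k, p i * r k * av b i q k := by
      simp only [fv, av]
      refine Finset.sum_congr rfl fun i _ => ?_
      rw [Finset.sum_comm]
      refine Finset.sum_congr rfl fun k _ => ?_
      rw [Finset.mul_sum]
      refine Finset.sum_congr rfl fun j _ => ?_
      ring
    rw [this]
    refine Finset.sum_eq_zero fun i _ => Finset.sum_eq_zero fun k _ => ?_
    rw [hq i k, mul_zero]
  have hp : (![1, 0] : Fin 2 → ℂ) ≠ 0 := by
    intro h0
    have := congrFun h0 0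
    simp at this
  rcases h ![1, 0] q r hp hne hr (hz _ _) with ⟨v, hv⟩ | ⟨v, hv⟩ | ⟨v, hv⟩
  · exact hv (hz _ _)
  · apply hv
    simp only [fv, Fin.sum_univ_two, Matrix.cons_val_zero, Matrix.cons_val_one]
    have e1 : ∀ j, ∑ k, (b 0 j k : ℂ) * 1 * v j * r k = v j * ∑ k, (b 0 j k : ℂ) * r k := by
      intro j
      rw [Finset.mul_sum]
      exact Finset.sum_congr rfl fun k _ => by ring
    simp only [e1, hMr', mul_zero, zero_mul, Finset.sum_const_zero, add_zero]
  · exact hv (hz _ _)

theorem t_CON : S_CON := by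
  intro b hb
  let A : Matrix (Fin 2 × Fin 3) (Fin 3) ℤ := Matrix.of fun ik j => b ik.1 j ik.2
  let G : Matrix (Fin 3) (Fin 3) ℤ := A.transpose * A
  have hAv : ∀ (q : Fin 3 → ℤ) (i : Fin 2) (k : Fin 3), (A.mulVec q) (i, k) = av b i q k := by
    intro q i k
    simp only [Matrix.mulVec, dotProduct, A, Matrix.of_apply, av, Int.cast_id]
  have hG : G.det ≠ 0 := by
    intro h0
    obtain ⟨v, hv, hGv⟩ := (Matrix.exists_mulVec_eq_zero_iff).2 h0
    have h1 : (A.mulVec v) ⬝ᵥ (A.mulVec v) = 0 := by
      have : v ⬝ᵥ (G.mulVec v) = 0 := by rw [hGv]; simp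
      rw [← this]
      simp only [G]
      rw [← Matrix.mulVec_mulVec, Matrix.dotProduct_mulVec v, Matrix.vecMul_transpose]
    have h2 : ∀ ik, (A.mulVec v) ik = 0 := by
      have h3 : ∀ ik ∈ Finset.univ, (A.mulVec v) ik * (A.mulVec v) ik = 0 := by
        rw [dotProduct] at h1
        exact (Finset.sum_eq_zero_iff_of_nonneg (fun ik _ => mul_self_nonneg _)).1 h1
      intro ik
      exact mul_self_eq_zero.1 (h3 ik (Finset.mem_univ _))
    have h4 : (fun j => (v j : ℂ)) = 0 := by
      apply ker_trivial b hb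
      intro i k
      have := h2 (i, k)
      rw [hAv] at this
      simp only [av, Int.cast_id] at this ⊢
      exact_mod_cast this
    apply hv
    funext j
    have := congrFun h4 j
    simpa using this
  refine ⟨G.det.natAbs, Nat.one_le_iff_ne_zero.2 (Int.natAbs_ne_zero.2 hG), ?_⟩
  intro q ⟨u, hu⟩ d hd
  have hdet : ∀ j, d ∣ G.det * q j := by
    intro j
    have h1 : (G.adjugate * G).mulVec q = G.adjugate.mulVec (A.transpose.mulVec (A.mulVec q)) := by
      simp only [G, Matrix.mulVec_mulVec]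
    rw [Matrix.adjugate_mul, Matrix.smul_mulVec, Matrix.one_mulVec] at h1
    have h2 := congrFun h1 j
    simp only [Pi.smul_apply, smul_eq_mul] at h2
    rw [h2]
    simp only [Matrix.mulVec, dotProduct]
    refine Finset.dvd_sum fun j' _ => Dvd.dvd.mul_left ?_ _
    refine Finset.dvd_sum fun ik _ => Dvd.dvd.mul_left ?_ _
    have := hd ik.1 ik.2
    rw [← hAv] at this
    simpa only [Matrix.mulVec, dotProduct] using this
  have h5 : d ∣ G.det := by
    have : G.det = ∑ i, u i * (G.det * q i) := by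
      calc G.det = G.det * ∑ i, u i * q i := by rw [hu, mul_one]
        _ = _ := by rw [Finset.mul_sum]; exact Finset.sum_congr rfl fun i _ => by ring
    rw [this]
    exact Finset.dvd_sum fun i _ => Dvd.dvd.mul_left (hdet i) _
  exact Int.dvd_natAbs.2 h5

end Pool.Agent.W51.QP
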